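import Mathlib

/-!
# Homothetic closed curves whose distance graph has finite components

Q1 is answered in the negative: the curve `z + z³/20` (`|z| = 1`) and its translates give homothetic
simple closed curves, not circles, whose distance graph is 2-regular with finite components.
-/

set_option autoImplicit false

namespace Pool.Agent.Results.MP_945a85_co.NonCircular

/-- Euclidean 3-space -/
abbrev E := EuclideanSpace ℝ (Fin 3)

/-- A simple closed curve: the image of an injective continuous map of the circle. -/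
def IsSimpleClosedCurve (A : Set E) : Prop :=
  ∃ γ : Circle → E, Continuous γ ∧ Function.Injective γ ∧ A = Set.range γ

/-- `B` is a homothetic image of `A`. -/
def Homothetic (A B : Set E) : Prop :=
  ∃ (l : ℝ) (v : E), l ≠ 0 ∧ B = (fun x => l • x + v) '' A

/-- A circle: the points of a plane at a fixed positive distance from a point of the plane. -/
def IsCircle (A : Set E) : Prop :=
  ∃ (S : AffineSubspace ℝ E) (c : E) (r : ℝ), Module.finrank ℝ S.direction = 2 ∧ c ∈ S ∧ 0 < r ∧
    A = {x | x ∈ S ∧ dist x c = r}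

/-- The distance graph `G_d` on `A ∪ B`. -/
def distGraph (A B : Set E) (d : ℝ) : SimpleGraph ↥(A ∪ B) where
  Adj p q := ((p.1 ∈ A ∧ q.1 ∈ B) ∨ (p.1 ∈ B ∧ q.1 ∈ A)) ∧ dist p.1 q.1 = d ∧ p ≠ q
  symm := ⟨fun p q h => ⟨h.1.symm.imp (fun x => ⟨x.2, x.1⟩) (fun x => ⟨x.2, x.1⟩),
    by rw [dist_comm]; exact h.2.1, h.2.2.symm⟩⟩
  loopless := ⟨fun p h => h.2.2 rfl⟩

/-- the points of the curve, as complex numbers -/
noncomputable def g (z : ℂ) : ℂ := z + z ^ 3 / 20

/-- the embedding of `ℂ × ℝ` in space -/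
noncomputable def P (z : ℂ) (t : ℝ) : E := !₂[z.re, z.im, t]

lemma dist_P (z w : ℂ) (t s : ℝ) :
    dist (P z t) (P w s) ^ 2 = Complex.normSq (z - w) + (t - s) ^ 2 := by
  rw [EuclideanSpace.dist_eq, Real.sq_sqrt (by positivity), Fin.sum_univ_three]
  simp only [P, Real.dist_eq, sq_abs, Complex.normSq_apply, Complex.sub_re, Complex.sub_im]
  simp
  ring

lemma P_inj {z w : ℂ} {t s : ℝ} (h : P z t = P w s) : z = w ∧ t = s := by
  have h0 := congrFun (congrArg WithLp.ofLp h) 0
  have h1 := congrFun (congrArg WithLp.ofLp h) 1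
  have h2 := congrFun (congrArg WithLp.ofLp h) 2
  simp [P] at h0 h1 h2
  exact ⟨Complex.ext h0 h1, h2⟩

/-- a primitive cube root of unity -/
noncomputable def w : ℂ := ⟨-1/2, Real.sqrt 3 / 2⟩

lemma w_sq : w ^ 2 + w + 1 = 0 := by
  have h3 : Real.sqrt 3 * Real.sqrt 3 = 3 := Real.mul_self_sqrt (by norm_num)
  apply Complex.ext
  · simp [w, pow_two]
    nlinarith
  · simp [w, pow_two]
    ring

lemma w_cube : w ^ 3 = 1 := by
  have h := w_sq
  linear_combination (w - 1) * h

lemma normSq_w : Complex.normSq w = 1 := by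
  have h3 : Real.sqrt 3 * Real.sqrt 3 = 3 := Real.mul_self_sqrt (by norm_num)
  simp [w, Complex.normSq_apply]
  nlinarith

lemma g_w (z : ℂ) : g (w * z) = w * z + z ^ 3 / 20 := by
  unfold g
  rw [mul_pow, w_cube, one_mul]

lemma g_w2 (z : ℂ) : g (w ^ 2 * z) = w ^ 2 * z + z ^ 3 / 20 := by
  unfold g
  rw [mul_pow, ← pow_mul, mul_comm 2 3, pow_mul, w_cube, one_pow, one_mul]

/-- the factorisation of the difference of two points of the curve -/
lemma g_sub {a b : ℂ} (ha : Complex.normSq a = 1) (hb : Complex.normSq b = 1) :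
    g a - g b = (a - b) * (1 + a * b * ((3 - Complex.normSq (a - b) : ℝ) : ℂ) / 20) := by
  have ha' : a * (starRingEnd ℂ) a = 1 := by rw [Complex.mul_conj, ha]; simp
  have hb' : b * (starRingEnd ℂ) b = 1 := by rw [Complex.mul_conj, hb]; simp
  have hs : ((Complex.normSq (a - b) : ℝ) : ℂ) = 2 - a * (starRingEnd ℂ) b -
      b * (starRingEnd ℂ) a := by
    rw [← Complex.mul_conj, map_sub]
    linear_combination ha' + hb'
  push_cast
  rw [hs]
  unfold g
  linear_combination (-(a - b) * b ^ 2 / 20) * ha' - (a - b) * a ^ 2 / 20 * hb'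

lemma normSq_g_sub {a b : ℂ} (ha : Complex.normSq a = 1) (hb : Complex.normSq b = 1) :
    Complex.normSq (g a - g b) = Complex.normSq (a - b) *
      (1 + (a * b).re * (3 - Complex.normSq (a - b)) / 10 +
        (3 - Complex.normSq (a - b)) ^ 2 / 400) := by
  rw [g_sub ha hb, Complex.normSq_mul]
  congr 1
  set δ := 3 - Complex.normSq (a - b)
  have hab : Complex.normSq (a * b) = 1 := by rw [Complex.normSq_mul, ha, hb, one_mul]
  rw [Complex.normSq_apply] at hab
  have h1 : (1 + a * b * (δ : ℂ) / 20).re = 1 + (a * b).re * δ / 20 := by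
    have : a * b * (δ : ℂ) / 20 = ((δ / 20 : ℝ) : ℂ) * (a * b) := by push_cast; ring
    rw [this, Complex.add_re, Complex.re_ofReal_mul, Complex.one_re]
    ring
  have h2 : (1 + a * b * (δ : ℂ) / 20).im = (a * b).im * δ / 20 := by
    have : a * b * (δ : ℂ) / 20 = ((δ / 20 : ℝ) : ℂ) * (a * b) := by push_cast; ring
    rw [this, Complex.add_im, Complex.im_ofReal_mul, Complex.one_im]
    ring
  rw [Complex.normSq_apply, h1, h2]
  linear_combination (δ ^ 2 / 400) * hab

lemma normSq_sub_le {a b : ℂ} (ha : Complex.normSq a = 1) (hb : Complex.normSq b = 1) :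
    Complex.normSq (a - b) ≤ 4 := by
  rw [Complex.normSq_apply] at *
  simp only [Complex.sub_re, Complex.sub_im]
  nlinarith [sq_nonneg (a.re + b.re), sq_nonneg (a.im + b.im)]

lemma abs_re_le {a b : ℂ} (ha : Complex.normSq a = 1) (hb : Complex.normSq b = 1) :
    |(a * b).re| ≤ 1 := by
  have hab : Complex.normSq (a * b) = 1 := by rw [Complex.normSq_mul, ha, hb, one_mul]
  rw [Complex.normSq_apply] at hab
  rw [abs_le]
  constructor <;> nlinarith [sq_nonneg ((a*b).im)]

lemma key {a b : ℂ} (ha : Complex.normSq a = 1) (hb : Complex.normSq b = 1)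
    (h : Complex.normSq (g a - g b) = 3) : b = w * a ∨ b = w ^ 2 * a := by
  have h1 := normSq_g_sub ha hb
  have h2 := normSq_sub_le ha hb
  have h3 := abs_re_le ha hb
  have h4 := Complex.normSq_nonneg (a - b)
  rw [h] at h1
  set s := Complex.normSq (a - b) with hs
  set c := (a * b).re
  have hs3 : s = 3 := by
    by_contra hne
    have h5 : (3 - s) * (120 * c + 3 * (3 - s) - 400 - 40 * ((3 - s) * c) - (3 - s) ^ 2) = 0 := by
      nlinarith
    rcases mul_eq_zero.mp h5 with h6 | h6
    · exact hne (by linarith)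
    · have h7 : |(3 - s) * c| ≤ 3 := by
        rw [abs_mul]
        have : |3 - s| ≤ 3 := by rw [abs_le]; constructor <;> linarith
        calc |3 - s| * |c| ≤ 3 * 1 := mul_le_mul this h3 (abs_nonneg _) (by norm_num)
          _ = 3 := by norm_num
      rw [abs_le] at h3 h7
      nlinarith [sq_nonneg (3 - s)]
  have ha' : a * (starRingEnd ℂ) a = 1 := by rw [Complex.mul_conj, ha]; simp
  have hb' : b * (starRingEnd ℂ) b = 1 := by rw [Complex.mul_conj, hb]; simp
  have hs' : ((s : ℝ) : ℂ) = 2 - a * (starRingEnd ℂ) b - b * (starRingEnd ℂ) a := by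
    rw [hs, ← Complex.mul_conj, map_sub]
    linear_combination ha' + hb'
  rw [hs3] at hs'
  push_cast at hs'
  have h8 : (b - w * a) * (b - w ^ 2 * a) = 0 := by
    have hw := w_sq
    have hw3 := w_cube
    linear_combination (a * b) * hs' - a * b * hw + a ^ 2 * hw3 + b ^ 2 * ha' * (-1) +
      a ^ 2 * hb' * (-1)
  rcases mul_eq_zero.mp h8 with h9 | h9
  · exact Or.inl (sub_eq_zero.mp h9)
  · exact Or.inr (sub_eq_zero.mp h9)

lemma normSq_w_mul {a : ℂ} (ha : Complex.normSq a = 1) : Complex.normSq (w * a) = 1 := by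
  rw [Complex.normSq_mul, normSq_w, ha, one_mul]

lemma normSq_w2_mul {a : ℂ} (ha : Complex.normSq a = 1) : Complex.normSq (w ^ 2 * a) = 1 := by
  rw [pow_two, mul_assoc]
  exact normSq_w_mul (normSq_w_mul ha)

lemma normSq_one_sub_w : Complex.normSq (1 - w) = 3 := by
  have h3 : Real.sqrt 3 * Real.sqrt 3 = 3 := Real.mul_self_sqrt (by norm_num)
  simp [w, Complex.normSq_apply]
  nlinarith

lemma normSq_one_sub_w2 : Complex.normSq (1 - w ^ 2) = 3 := by
  have h : (1 : ℂ) - w ^ 2 = (-w ^ 2) * (1 - w) := by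
    have := w_cube
    linear_combination (-1 : ℂ) * this
  rw [h, Complex.normSq_mul, Complex.normSq_neg, map_pow, normSq_w, normSq_one_sub_w]
  norm_num

lemma dist_w {a : ℂ} (ha : Complex.normSq a = 1) :
    Complex.normSq (g a - g (w * a)) = 3 := by
  have h : g a - g (w * a) = a * (1 - w) := by
    rw [g_w]; unfold g; ring
  rw [h, Complex.normSq_mul, ha, normSq_one_sub_w, one_mul]

lemma dist_w2 {a : ℂ} (ha : Complex.normSq a = 1) :
    Complex.normSq (g a - g (w ^ 2 * a)) = 3 := by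
  have h : g a - g (w ^ 2 * a) = a * (1 - w ^ 2) := by
    rw [g_w2]; unfold g; ring
  rw [h, Complex.normSq_mul, ha, normSq_one_sub_w2, one_mul]

lemma g_inj {a b : ℂ} (ha : Complex.normSq a = 1) (hb : Complex.normSq b = 1)
    (h : g a = g b) : a = b := by
  have h1 := normSq_g_sub ha hb
  have h2 := normSq_sub_le ha hb
  have h3 := abs_re_le ha hb
  have h4 := Complex.normSq_nonneg (a - b)
  rw [h, sub_self, Complex.normSq_zero] at h1
  rcases mul_eq_zero.mp h1.symm with h5 | h5
  · exact sub_eq_zero.mp (Complex.normSq_eq_zero.mp h5)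
  · exfalso
    set s := Complex.normSq (a - b)
    have h7 : |(a * b).re * (3 - s)| ≤ 3 := by
      rw [abs_mul]
      have : |3 - s| ≤ 3 := by rw [abs_le]; constructor <;> linarith
      calc |(a * b).re| * |3 - s| ≤ 1 * 3 := mul_le_mul h3 this (abs_nonneg _) (by norm_num)
        _ = 3 := by norm_num
    rw [abs_le] at h7
    nlinarith [sq_nonneg (3 - s)]

/-- the curve at height `t` -/
def curve (t : ℝ) : Set E := {x | ∃ z : ℂ, Complex.normSq z = 1 ∧ x = P (g z) t}

lemma continuous_P (t : ℝ) : Continuous (fun z : ℂ => P z t) := by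
  unfold P
  apply (PiLp.continuous_toLp 2 _).comp
  apply continuous_pi
  intro i
  fin_cases i
  · exact Complex.continuous_re
  · exact Complex.continuous_im
  · exact continuous_const

lemma continuous_g : Continuous g := by
  unfold g
  fun_prop

lemma curve_closed (t : ℝ) : IsSimpleClosedCurve (curve t) := by
  refine ⟨fun z => P (g (z : ℂ)) t, ?_, ?_, ?_⟩
  · exact (continuous_P t).comp (continuous_g.comp continuous_subtype_val)
  · intro a b hab
    have h1 : ∀ c : Circle, Complex.normSq (c : ℂ) = 1 := fun c => Circle.normSq_coe c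
    exact Circle.ext (g_inj (h1 a) (h1 b) (P_inj hab).1)
  · ext x
    constructor
    · rintro ⟨z, hz, rfl⟩
      refine ⟨⟨z, mem_sphere_zero_iff_norm.2 ?_⟩, rfl⟩
      rw [← sq_eq_sq₀ (norm_nonneg _) zero_le_one, ← Complex.normSq_eq_norm_sq, hz, one_pow]
    · rintro ⟨z, rfl⟩
      exact ⟨z, Circle.normSq_coe z, rfl⟩

lemma curve_homothetic (h : ℝ) : Homothetic (curve 0) (curve h) := by
  refine ⟨1, P 0 h, one_ne_zero, ?_⟩
  have hP : ∀ z : ℂ, (1 : ℝ) • P z 0 + P 0 h = P z h := by
    intro z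
    ext i
    fin_cases i <;> simp [P]
  ext x
  constructor
  · rintro ⟨z, hz, rfl⟩
    exact ⟨P (g z) 0, ⟨z, hz, rfl⟩, hP _⟩
  · rintro ⟨y, ⟨z, hz, rfl⟩, rfl⟩
    exact ⟨z, hz, hP _⟩

lemma curve_not_circle (t : ℝ) : ¬ IsCircle (curve t) := by
  rintro ⟨S, c, r, -, -, -, hS⟩
  have h1 : ∀ z : ℂ, Complex.normSq z = 1 → dist (P (g z) t) c = r := by
    intro z hz
    have : P (g z) t ∈ curve t := ⟨z, hz, rfl⟩
    rw [hS] at this
    exact this.2
  have hc : c = P ⟨c 0, c 1⟩ (c 2) := by
    ext i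
    fin_cases i <;> simp [P]
  have h2 : ∀ z : ℂ, Complex.normSq z = 1 →
      Complex.normSq (g z - ⟨c 0, c 1⟩) + (t - c 2) ^ 2 = r ^ 2 := by
    intro z hz
    rw [← dist_P, ← hc, h1 z hz]
  have e1 := h2 1 (by simp)
  have e2 := h2 (-1) (by simp)
  have e3 := h2 Complex.I (by simp)
  have e4 := h2 (-Complex.I) (by simp)
  have g1 : g 1 = ⟨21/20, 0⟩ := by
    apply Complex.ext
    · simp [g]; norm_num
    · simp [g]
  have g2 : g (-1) = ⟨-21/20, 0⟩ := by
    apply Complex.ext
    · simp [g, pow_succ]; norm_num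
    · simp [g, pow_succ]
  have g3 : g Complex.I = ⟨0, 19/20⟩ := by
    apply Complex.ext
    · simp [g, pow_succ]
    · simp [g, pow_succ]; norm_num
  have g4 : g (-Complex.I) = ⟨0, -19/20⟩ := by
    apply Complex.ext
    · simp [g, pow_succ]
    · simp [g, pow_succ]; norm_num
  rw [g1] at e1
  rw [g2] at e2
  rw [g3] at e3
  rw [g4] at e4
  simp only [Complex.normSq_apply, Complex.sub_re, Complex.sub_im] at e1 e2 e3 e4
  nlinarith

section graph

variable (h : ℝ) (hh : 0 ≤ h)
include hh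

/-- neighbours in the distance graph -/
lemma adj_iff {a : ℂ} (ha : Complex.normSq a = 1) {t : ℝ} (ht : t = 0 ∨ t = h)
    (p q : ↥(curve 0 ∪ curve h)) (hp : p.1 = P (g a) t) :
    (distGraph (curve 0) (curve h) (Real.sqrt (3 + h ^ 2))).Adj p q ↔
      q.1 = P (g (w * a)) (h - t) ∨ q.1 = P (g (w ^ 2 * a)) (h - t) := by
  have hd : 0 < Real.sqrt (3 + h ^ 2) := Real.sqrt_pos.mpr (by positivity)
  have hsq : Real.sqrt (3 + h ^ 2) ^ 2 = 3 + h ^ 2 := Real.sq_sqrt (by positivity)
  have hmem0 : ∀ x : E, ∀ z s, x = P z s → x ∈ curve 0 → s = 0 := by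
    rintro x z s rfl ⟨z', -, hx⟩; exact (P_inj hx).2
  have hmemh : ∀ x : E, ∀ z s, x = P z s → x ∈ curve h → s = h := by
    rintro x z s rfl ⟨z', -, hx⟩; exact (P_inj hx).2
  constructor
  · rintro ⟨h1, h2, -⟩
    have h3 : ∃ b, Complex.normSq b = 1 ∧ q.1 = P (g b) (h - t) := by
      rcases h1 with ⟨hpA, hqB⟩ | ⟨hpB, hqA⟩
      · have e := hmem0 _ _ _ hp hpA
        obtain ⟨b, hb, hq⟩ := hqB
        exact ⟨b, hb, by rw [hq, e, sub_zero]⟩
      · have e := hmemh _ _ _ hp hpB
        obtain ⟨b, hb, hq⟩ := hqA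
        exact ⟨b, hb, by rw [hq, e, sub_self]⟩
    obtain ⟨b, hb, hq⟩ := h3
    have h4 : Complex.normSq (g a - g b) = 3 := by
      have h5 := dist_P (g a) (g b) t (h - t)
      rw [← hp, ← hq, h2, hsq] at h5
      have h6 : (t - (h - t)) ^ 2 = h ^ 2 := by
        rcases ht with rfl | rfl <;> ring
      rw [h6] at h5
      linarith
    rcases key ha hb h4 with rfl | rfl
    · exact Or.inl hq
    · exact Or.inr hq
  · intro hq
    have h3 : ∃ b, Complex.normSq b = 1 ∧ q.1 = P (g b) (h - t) ∧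
        Complex.normSq (g a - g b) = 3 := by
      rcases hq with hq | hq
      · exact ⟨w * a, normSq_w_mul ha, hq, dist_w ha⟩
      · exact ⟨w ^ 2 * a, normSq_w2_mul ha, hq, dist_w2 ha⟩
    obtain ⟨b, hb, hq, h4⟩ := h3
    have h5 : dist p.1 q.1 = Real.sqrt (3 + h ^ 2) := by
      rw [← sq_eq_sq₀ dist_nonneg hd.le, hp, hq, dist_P, hsq, h4]
      have h6 : (t - (h - t)) ^ 2 = h ^ 2 := by
        rcases ht with rfl | rfl <;> ring
      rw [h6]
    refine ⟨?_, h5, ?_⟩
    · rcases ht with rfl | rfl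
      · exact Or.inl ⟨⟨a, ha, hp⟩, ⟨b, hb, by rw [hq, sub_zero]⟩⟩
      · exact Or.inr ⟨⟨a, ha, hp⟩, ⟨b, hb, by rw [hq, sub_self]⟩⟩
    · rintro rfl
      rw [dist_self] at h5
      exact hd.ne h5

omit hh in
lemma exists_rep (p : ↥(curve 0 ∪ curve h)) :
    ∃ a t, Complex.normSq a = 1 ∧ (t = 0 ∨ t = h) ∧ p.1 = P (g a) t := by
  rcases p.2 with ⟨a, ha, hp⟩ | ⟨a, ha, hp⟩
  · exact ⟨a, 0, ha, Or.inl rfl, hp⟩
  · exact ⟨a, h, ha, Or.inr rfl, hp⟩

lemma mem_union {a : ℂ} (ha : Complex.normSq a = 1) {t : ℝ} (ht : t = 0 ∨ t = h) :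
    P (g a) t ∈ curve 0 ∪ curve h := by
  rcases ht with rfl | rfl
  · exact Or.inl ⟨a, ha, rfl⟩
  · exact Or.inr ⟨a, ha, rfl⟩

lemma two_neighbours (p : ↥(curve 0 ∪ curve h)) :
    ((distGraph (curve 0) (curve h) (Real.sqrt (3 + h ^ 2))).neighborSet p).ncard = 2 := by
  obtain ⟨a, t, ha, ht, hp⟩ := exists_rep h p
  have ht' : h - t = 0 ∨ h - t = h := by
    rcases ht with rfl | rfl
    · right; ring
    · left; ring
  have h1 : (distGraph (curve 0) (curve h) (Real.sqrt (3 + h ^ 2))).neighborSet p =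
      {⟨P (g (w * a)) (h - t), mem_union h hh (normSq_w_mul ha) ht'⟩,
        ⟨P (g (w ^ 2 * a)) (h - t), mem_union h hh (normSq_w2_mul ha) ht'⟩} := by
    ext q
    rw [SimpleGraph.mem_neighborSet, adj_iff h hh ha ht p q hp]
    simp only [Set.mem_insert_iff, Set.mem_singleton_iff, Subtype.ext_iff]
  rw [h1, Set.ncard_pair]
  intro heq
  have h2 := g_inj (normSq_w_mul ha) (normSq_w2_mul ha) (P_inj (congrArg Subtype.val heq)).1
  have ha0 : a ≠ 0 := by rintro rfl; simp at ha
  have h3 : w = w ^ 2 := mul_right_cancel₀ ha0 h2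
  have h4 := w_sq
  have h5 := w_cube
  have h6 : w = 1 := by
    have : w ≠ 0 := by rintro h0; rw [h0] at h5; norm_num at h5
    have h7 : w * (w - 1) = 0 := by linear_combination (-1 : ℂ) * h3
    rcases mul_eq_zero.mp h7 with h8 | h8
    · exact absurd h8 this
    · exact sub_eq_zero.mp h8
  rw [h6] at h4
  norm_num at h4

lemma finite_comp (c : (distGraph (curve 0) (curve h) (Real.sqrt (3 + h ^ 2))).ConnectedComponent) :
    c.supp.Finite := by
  induction c using SimpleGraph.ConnectedComponent.ind with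
  | h p =>
    obtain ⟨a, t, ha, ht, hp⟩ := exists_rep h p
    -- the finite set of heights and points containing the component
    set T : Set E := {x | ∃ z ∈ ({a, w * a, w ^ 2 * a} : Set ℂ), ∃ s ∈ ({0, h} : Set ℝ),
      x = P (g z) s} with hT
    have hTf : T.Finite := by
      have : T = (fun zs : ℂ × ℝ => P (g zs.1) zs.2) ''
          (({a, w * a, w ^ 2 * a} : Set ℂ) ×ˢ ({0, h} : Set ℝ)) := by
        ext x
        constructor
        · rintro ⟨z, hz, s, hs, rfl⟩
          exact ⟨(z, s), ⟨hz, hs⟩, rfl⟩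
        · rintro ⟨⟨z, s⟩, ⟨hz, hs⟩, rfl⟩
          exact ⟨z, hz, s, hs, rfl⟩
      rw [this]
      exact ((Set.toFinite _).prod (Set.toFinite _)).image _
    have hclosed : ∀ p q : ↥(curve 0 ∪ curve h), p.1 ∈ T →
        (distGraph (curve 0) (curve h) (Real.sqrt (3 + h ^ 2))).Adj p q → q.1 ∈ T := by
      rintro p q ⟨z, hz, s, hs, hps⟩ hadj
      have hz1 : Complex.normSq z = 1 := by
        rcases hz with rfl | rfl | rfl
        · exact ha
        · exact normSq_w_mul ha
        · exact normSq_w2_mul ha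
      have hs' : s = 0 ∨ s = h := by simpa using hs
      rw [adj_iff h hh hz1 hs' p q hps] at hadj
      have hs2 : h - s ∈ ({0, h} : Set ℝ) := by
        rcases hs' with rfl | rfl
        · right; simp
        · left; ring
      have hw3 := w_cube
      have hclos : w * z ∈ ({a, w * a, w ^ 2 * a} : Set ℂ) ∧
          w ^ 2 * z ∈ ({a, w * a, w ^ 2 * a} : Set ℂ) := by
        rcases hz with rfl | rfl | rfl
        · exact ⟨Or.inr (Or.inl rfl), Or.inr (Or.inr rfl)⟩
        · refine ⟨Or.inr (Or.inr ?_), Or.inl ?_⟩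
          · change w * (w * a) = w ^ 2 * a
            ring
          · linear_combination a * hw3
        · refine ⟨Or.inl ?_, Or.inr (Or.inl ?_)⟩
          · linear_combination a * hw3
          · linear_combination w * a * hw3
      rcases hadj with hq | hq
      · exact ⟨_, hclos.1, _, hs2, hq⟩
      · exact ⟨_, hclos.2, _, hs2, hq⟩
    have hreach : ∀ q, (distGraph (curve 0) (curve h) (Real.sqrt (3 + h ^ 2))).Reachable p q →
        q.1 ∈ T := by
      rintro q ⟨walk⟩
      have hp0 : p.1 ∈ T := ⟨a, Or.inl rfl, t, by simpa using ht, hp⟩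
      clear hp
      induction walk with
      | nil => exact hp0
      | cons hadj _ ih => exact ih (hclosed _ _ hp0 hadj)
    refine Set.Finite.subset (hTf.preimage Subtype.val_injective.injOn) ?_
    intro q hq
    rw [SimpleGraph.ConnectedComponent.mem_supp_iff, SimpleGraph.ConnectedComponent.eq] at hq
    exact hreach q hq.symm

end graph

/-- For every `h ≥ 0` there are homothetic simple closed curves `A`, `B` in space, `A = B` if
`h = 0` and disjoint if `h > 0`, that are not circles, although every point of `A ∪ B` has exactly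
two neighbours in `G_d` for `d = √(3 + h²)` and all components of `G_d` are finite. -/
theorem result (h : ℝ) (hh : 0 ≤ h) :
    ∃ (A B : Set E) (d : ℝ), 0 < d ∧ IsSimpleClosedCurve A ∧ IsSimpleClosedCurve B ∧
      Homothetic A B ∧ ¬ IsCircle A ∧ ¬ IsCircle B ∧
      (∀ p, ((distGraph A B d).neighborSet p).ncard = 2) ∧
      (∀ c : (distGraph A B d).ConnectedComponent, c.supp.Finite) ∧
      (h = 0 → A = B) ∧ (0 < h → Disjoint A B) ∧ (∀ x ∈ A, x 2 = 0) := by
  refine ⟨curve 0, curve h, Real.sqrt (3 + h ^ 2), Real.sqrt_pos.mpr (by positivity),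
    curve_closed 0, curve_closed h, curve_homothetic h, curve_not_circle 0, curve_not_circle h,
    two_neighbours h hh, finite_comp h hh, ?_, ?_, ?_⟩
  · rintro rfl; rfl
  · intro hpos
    rw [Set.disjoint_left]
    rintro x ⟨z, hz, rfl⟩ ⟨z', hz', hx⟩
    exact hpos.ne (P_inj hx).2
  · rintro x ⟨z, hz, rfl⟩
    simp [P]

end Pool.Agent.Results.MP_945a85_co.NonCircular
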